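import Mathlib
import Pool.Agent.Q186.FS.Defs
import Pool.Agent.Q186.FS.Final

set_option autoImplicit false

open scoped ComplexConjugate

namespace Pool.Agent.Results.MP_620062_an.ZeroProducts

open Pool.Agent.Q186.FS

/-- Zero products of Toeplitz operators on the Fock-Sobolev spaces `F^{2,m}`, `m ≥ 1`: for
`f, g, h, k` in `A_1`, if `T_u T_v` kills every reproducing kernel, where `u = f + conj k` and
`v = h + conj g`, then `u = 0` or `v = 0`. -/
theorem result (m : ℕ) (hm : 1 ≤ m) (f g h k : ℂ → ℂ) (hf : A1 f) (hg : A1 g) (hh : A1 h)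
    (hk : A1 k)
    (H : ∀ a z : ℂ, Toep m (fun w => f w + conj (k w))
      (Toep m (fun w => h w + conj (g w)) (fun w => Ker m w a)) z = 0) :
    (∀ z, f z + conj (k z) = 0) ∨ (∀ z, h z + conj (g z) = 0) :=
  zero_product m hm f g h k hf hg hh hk H

end Pool.Agent.Results.MP_620062_an.ZeroProducts
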